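import Pool.Agent.H925.EffHalf

set_option autoImplicit false

/-!
# Finitely many `p`-curvatures suffice on the thrice-punctured line

The system `(⋆)`, `f' = (b / t + c / (t - 1)) f`, is the system `Y' = A / (D t (t - 1)) Y` with
`A = D (b (t - 1) + c t)`. For the systems of a class of bounded defect, the conclusion of Grothendieck's conjecture
follows from the vanishing of the `p`-curvatures for the FINITELY MANY primes `p ≤ C H`, `H` the height of the
matrix, `C` a constant which depends only on the rank, the number field and the local data of the class.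

(1) All connections on the line without three points, with any singularities at `1` and `∞` (no condition at these
points, any degree `m`) and the radius `16` of the modular function `λ`. (2) Flat bundles on the triangle orbifolds
of type `(∞, n₁, n₂)`, with the radii of the modular curves (1728 for the type `(∞, 2, 3)`, 256 for `(∞, 2, 4)`, ...).
(3) An explicit case of (1): every number field unramified outside `2`, all matrices with half integral coefficients
and local exponents `0`, `1/2` at the origin.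

Proof. The denominators of the coefficients of the solutions up to the order `n` involve only the `p`-curvatures for
`p ≤ m₀ (n + 1)`; Gronwall's lemma bounds the pull-backs of the solutions to the disc by `exp (C (H + 1))`; the
auxiliary polynomials of Siegel's lemma, extrapolated up to the order `T = C' H`, show that the solutions are close to
algebraic functions of degree `O(H)` in `t`; and a zero estimate for the algebra generated by these algebraic
functions shows that they solve the system.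
-/

namespace Pool.Agent.Results.MP_5e5ff1_ag.EffectiveCriterion

open NumberField Pool.Agent.Helper338PC Pool.Agent.H925

/-- (1) Let `defect κ S E ℓ < log 16`. For all `n₀ > 0`, `m`, every number field `K` and every `r`
there is `C` such that for all `H ≥ 1` every system `Y' = A / (D x (x - 1)) Y` of rank `r` over `K`
of the class `CuspClass`, of height at most `H`, has a full set of algebraic solutions if the
`p`-curvatures vanish at all places over the primes `p ≤ C H` outside `S` and `E` (which are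
supposed to be unramified in `K`). (2) The same for the flat bundles on the triangle orbifold of type
`(∞, n₁, n₂)` under the condition `defect κ S E ℓ < log R`, with `R = triRadius n₁ n₂` or any radius
`R` of a uniformization. (3) For a number field unramified outside `2` and `D = 2`, residue at `0`
with the eigenvalues `0` and `1 / 2`, the primes `2 < p ≤ C H` are enough. -/
theorem result :
    (∀ n₀ : ℕ, 0 < n₀ → ∀ (m κ : ℕ) (S : Finset ℕ), (∀ p ∈ S, p.Prime) → ∀ E : Set ℕ,
      Summable (sparseTerm E) → ∀ ℓ : ℕ → ℝ, (∀ p ∈ S, 0 ≤ ℓ p) → defect κ S E ℓ < Real.log 16 →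
      ∀ (K : Type) [Field K] [NumberField K] (r : ℕ), ∃ C : ℝ,
        ∀ (H : ℝ) (D : ℕ) (A : Matrix (Fin r) (Fin r) (Polynomial (𝓞 K))), 1 ≤ H →
          CuspClass n₀ m κ S ℓ H K D A →
          (∀ p : ℕ, p.Prime → (p : ℝ) ≤ C * H → p ∉ S → p ∉ E →
            (Ideal.span {(p : 𝓞 K)}).IsRadical ∧
            ∀ (𝔭 : Ideal (𝓞 K)) [𝔭.IsMaximal], (p : 𝓞 K) ∈ 𝔭 → PCurvZeroAt 𝔭 D 1 A) →
          FullAlgebraic (sysG (algebraMap (𝓞 K) K) D 1 A)) ∧
    (∀ n₀ n₁ n₂ : ℕ, 0 < n₀ → 0 < n₁ → 0 < n₂ → ∀ (κ : ℕ) (S : Finset ℕ), (∀ p ∈ S, p.Prime) →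
      ∀ E : Set ℕ, Summable (sparseTerm E) → ∀ ℓ : ℕ → ℝ, (∀ p ∈ S, 0 ≤ ℓ p) → ∀ R : ℝ,
      (R = triRadius n₁ n₂ ∨ (0 < R ∧ CuspRadius n₁ n₂ R)) → defect κ S E ℓ < Real.log R →
      ∀ (K : Type) [Field K] [NumberField K] (r : ℕ), ∃ C : ℝ,
        ∀ (H : ℝ) (D : ℕ) (A : Matrix (Fin r) (Fin r) (Polynomial (𝓞 K))), 1 ≤ H →
          CuspClass n₀ 1 κ S ℓ H K D A → TriangleType D n₁ n₂ A →
          (∀ p : ℕ, p.Prime → (p : ℝ) ≤ C * H → p ∉ S → p ∉ E →
            (Ideal.span {(p : 𝓞 K)}).IsRadical ∧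
            ∀ (𝔭 : Ideal (𝓞 K)) [𝔭.IsMaximal], (p : 𝓞 K) ∈ 𝔭 → PCurvZeroAt 𝔭 D 1 A) →
          FullAlgebraic (sysG (algebraMap (𝓞 K) K) D 1 A)) ∧
    (∀ (K : Type) [Field K] [NumberField K],
      (∀ p : ℕ, p.Prime → p ≠ 2 → (Ideal.span {(p : 𝓞 K)}).IsRadical) → ∀ m r : ℕ, ∃ C : ℝ,
      ∀ (H : ℝ) (A : Matrix (Fin r) (Fin r) (Polynomial (𝓞 K))), 1 ≤ H →
        (∀ i j, (A i j).natDegree ≤ m) →
        (∀ (σ : K →+* ℂ) (i j : Fin r) (k : ℕ),
          ‖σ (algebraMap (𝓞 K) K ((A i j).coeff k))‖ ≤ 2 * H) →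
        (∃ b : Fin r → Fin 2, ∀ i j, (A i j).coeff 0 = if i = j then -((b i : ℕ) : 𝓞 K) else 0) →
        (∀ p : ℕ, p.Prime → p ≠ 2 → (p : ℝ) ≤ C * H →
          ∀ (𝔭 : Ideal (𝓞 K)) [𝔭.IsMaximal], (p : 𝓞 K) ∈ 𝔭 → PCurvZeroAt 𝔭 2 1 A) →
        FullAlgebraic (sysG (algebraMap (𝓞 K) K) 2 1 A)) :=
  ⟨fun _ h0 m κ _ hS _ hE _ hℓ hdef K _ _ r => eff_univ h0 m κ hS hE hℓ hdef K r,
    fun _ _ _ h0 h1 h2 κ _ hS _ hE _ hℓ _ hR hdef K _ _ r =>
      eff_tri h0 h1 h2 κ hS hE hℓ hR hdef K r,
    fun K _ _ hK m r => eff_half K hK m r⟩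

end Pool.Agent.Results.MP_5e5ff1_ag.EffectiveCriterion
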