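import Pool.Agent.H925.FinFuchs

set_option autoImplicit false

/-!
# Systems `df = (b dt / t + c dt / (t - 1)) f`: small defect, nothing assumed about the residues at `1` and infinity

Let `(⋆)` be the system `Y' = G Y`, `G = b / x + c / (x - 1) = A / (D x (x - 1))`, with matrices `b`, `c` over a number
field `K`, where `D ≥ 1` is an integer such that `D b`, `D c` are integral. Suppose that there is a fundamental matrix
`U x ^ β` at `0` with exponents in `{0, 1 / n₀, ..., (n₀ - 1) / n₀}` (that is, `b` is semisimple with these
eigenvalues), at most `κ` of them different, and that `U` converges `p`-adically for `|x| < p ^ (-ℓ_p)` for `p` in a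
finite set `S` of primes, which contains the divisors of `D` (or satisfies a simple integrality condition). Let `E` be
another finite set of primes. If the `p`-curvature of `(⋆)` is zero modulo `p` for all primes `p` outside `S` and `E`,
and

`∑_{p ∈ S} ℓ_p log p + κ (∑_{p ∉ S ∪ E} log p / (p (p - 1)) + ∑_{p ∈ E} log p / (p - 1)) < log R(n₀; n₁, n₂)`,

then `(⋆)` has a full set of algebraic solutions. Here `R(n₀; n₁, n₂)` is the radius of a uniformization of the
compact orbifold `(n₀; n₁, n₂)` at the vertex of order `n₀`, and `n₁`, `n₂` are any integers such that the
RATIONAL eigenvalues of `c` and of `-(b + c)` belong to `(1 / n₁) ℤ` and `(1 / n₂) ℤ`; one can always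
take `n₁ = n₂ = D`. No condition of semisimplicity, of rationality or on the size of the eigenvalues is
imposed on `c` and `b + c`, and `K` may be ramified at all primes.

The conclusion is uniform: there is a constant `M` which depends only on `(n₀; n₁, n₂)` and on the bound `δ < log R`
for the defect, and, for given local data `κ`, `S`, `E`, `ℓ` of defect at most `δ`, ONE finite extension `F` of
`ℂ(x)` of degree at most `M` which contains full sets of solutions of all the systems `(⋆)` with these data, over
all number fields, of all ranks and with all `D`. So all the monodromy groups are quotients of one finite group.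
And there is ONE FINITE LIST `𝒢` of irreducible systems, of ranks at most `M`, such that all the systems `(⋆)` with
these local data are, up to rational gauge transformations, direct sums of systems of the list (`SumOf`): for
every rank there are only finitely many up to equivalence, over all number fields together and without any bound
for heights, degrees or the denominators `D`.

The earlier theorems of this kind (the library's `PadicDefect`, the theorems `ModularOrbifoldDefect`,
`VertexUniformBound` of this page and `CompactTriangleOrbifolds`) assume that the residues at `1` and infinity are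
semisimple with eigenvalues in an interval of length one.

Proof. Let `L` be the residue at `1` (or infinity). (1) From the vanishing of the `p`-curvatures the matrix
`∏_{j < p} (L - j)` is zero modulo almost all places; so the characteristic polynomial of `L` splits completely
modulo almost all primes, its roots are rational (Frobenius), and `L` is semisimple. (2) Shearing transformations
with polynomial entries at `1` and with Laurent polynomials at infinity, alternating with transformations which make
the residue block triangular, move the eigenvalues into an interval of length one; the statement (1) is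
invariant, so that the residues remain semisimple (`exists_oneGauge`, `exists_infGauge`). (3) The orders of the poles
of these transformations are not bounded in terms of the local data; but the criterion of algebraicity
(Siegel's lemma for the additive group of all power series with given local bounds) holds with a bound for the
degree which does not depend on them (`criterionV`, `series_algW`). (4) The horizontal sections of the flat bundle
on the disc, which is glued from the three frames, are holomorphic (`orb_convW`).
-/

namespace Pool.Agent.Results.MP_5e5ff1_ag.FreeResidues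

open NumberField Pool.Agent.Helper338PC Pool.Agent.H925

/-- (1) Systems `(⋆)` of small defect with free residues at `1` and infinity: one finite extension of
`ℂ(x)` of bounded degree contains all solutions, and one finite list of irreducible systems of bounded ranks
generates all the systems. (2) Radii of the compact triangle orbifolds at the
vertices. -/
theorem result :
    (∀ n₀ n₁ n₂ : ℕ, 0 < n₀ → 0 < n₁ → 0 < n₂ → ∀ R δ : ℝ, 0 < R →
      TriRadius n₀ n₁ n₂ R → δ < Real.log R → ∃ M : ℕ,
      ∀ (κ : ℕ) (S E : Finset ℕ) (ℓ : ℕ → ℝ), (∀ p ∈ S, p.Prime) →
        (∀ p ∈ S, 0 ≤ ℓ p) → defect κ S E ℓ ≤ δ →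
        ∃ (F : Type) (_ : Field F) (_ : Algebra (RatFunc ℂ) F) (d : Derivation ℤ F F)
          (𝒢 : Set (Σ m : ℕ, Matrix (Fin m) (Fin m) (RatFunc ℂ))),
          FiniteDimensional (RatFunc ℂ) F ∧ Module.finrank (RatFunc ℂ) F ≤ M ∧
          (∀ f, d (algebraMap (RatFunc ℂ) F f) = algebraMap (RatFunc ℂ) F (W432.PC.ddx ℂ f)) ∧
          𝒢.Finite ∧ (∀ s ∈ 𝒢, 0 < s.1 ∧ s.1 ≤ M ∧ ¬ BlockTri s.2 ∧ SolvedIn s.2 F d) ∧
          ∀ (K : Type) [Field K] [NumberField K] (φ : K →+* ℂ) (r D : ℕ)
            (A : Matrix (Fin r) (Fin r) (Polynomial (𝓞 K))),
            FuchsClass n₀ n₁ n₂ κ S E ℓ K D A →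
            SolvedIn (sysG (φ.comp (algebraMap (𝓞 K) K)) D 1 A) F d ∧
            SumOf 𝒢 r (sysG (φ.comp (algebraMap (𝓞 K) K)) D 1 A)) ∧
    ((∀ n n₁ n₂ : ℕ, 0 < n → 0 < n₁ → 0 < n₂ → ∀ R : ℝ, R < triRadius n₁ n₂ →
        TriRadius n n₁ n₂ R) ∧
      TriRadius 7 3 2 14200 ∧ TriRadius 8 3 2 3490 ∧ TriRadius 9 3 2 3450 ∧ TriRadius 4 5 2 440 ∧
      ∀ n : ℕ, TriRadius 3 2 n 137 ∧ TriRadius 4 2 n 91 ∧ TriRadius 2 3 n 57 ∧
        TriRadius 3 3 n 34 ∧ TriRadius 4 4 n 22) :=
  ⟨fun _ _ _ h0 h1 h2 _ _ hR0 hR hδ => fuchs_finite h0 h1 h2 hR0 hR hδ,
    fun _ _ _ hn hn₁ hn₂ _ hR => tri_of_lt hn hn₁ hn₂ hR,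
    tr_seven, tr_eight, tr_nine, tr_four, fun _ => ⟨.of_vertex vr_three_two,
      .of_vertex vr_four_two, .of_vertex vr_two_three, .of_vertex vr_three_three,
      .of_vertex vr_four_four⟩⟩

end Pool.Agent.Results.MP_5e5ff1_ag.FreeResidues
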