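import Pool.Agent.H925.Tri

set_option autoImplicit false

/-!
# Grothendieck's conjecture on the modular orbifold and other triangle orbifolds

The `p`-curvature conjecture for flat bundles on the triangle orbifold of type `(∞, n₁, n₂)` whose total defect
(a sum of local terms which measure the `p`-adic radii of convergence at the cusp) is less than the logarithm of
the radius of the orbifold at the cusp: `1728` for the modular orbifold `(∞, 2, 3)`, to which the whole conjecture
can be reduced, `256` for `(∞, 2, 4)`, `108` for `(∞, 2, 6)`, `48 √3` for `(∞, 3, 3)`, `64` for `(∞, 2, n)`, `32` for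
`(∞, 4, 4)`, `27` for `(∞, 3, n)`.

Proof. Let `Φ` be a meromorphic function on the unit disc, `Φ = τ / v ^ n₂`, `1 - Φ = κ s ^ n₁ / v ^ n₂`, with `τ`
without zeros except the origin. The pull-back of the solutions by `Φ` is holomorphic outside the origin: if `P j`,
`E i` are the spectral projections of the residues at `1` and infinity, the vectors `Y j = P j F / s ^ j` and
`Z i = E i F / v ^ i` satisfy a linear system with holomorphic coefficients. As `Φ ^ β` is many-valued around the
poles of `Φ`, the criterion of algebraicity (Siegel's lemma, with a function which clears the poles) is applied to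
a power of each entry of the fundamental matrix. The denominators of all its powers are bounded with the vanishing
of the `p`-curvatures (`Helper338PC.gden`). The functions `Φ` are obtained from the approximations of `λ` by the
arithmetic-geometric mean, and of the cubic theta functions by its cubic analogue.
-/

namespace Pool.Agent.Results.MP_5e5ff1_ag.ModularOrbifoldDefect

open NumberField Pool.Agent.Helper338PC Pool.Agent.H925

/-- Grothendieck's conjecture for the flat bundles `d - A dx / (D x (x - 1))` on the triangle orbifold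
of type `(∞, n₁, n₂)` over a number field whose total defect is less than `log (triRadius n₁ n₂)`
(`log 1728` for the modular orbifold, `n₁ = 2`, `n₂ = 3`), or than `log R` for a uniformization
of radius `R`. The `p`-curvatures are supposed to vanish outside a finite set `S` and a possibly
infinite sparse set `E` of primes. -/
theorem result (K : Type) [Field K] [NumberField K] (r D : ℕ) (hD : D ≠ 0)
    (A : Matrix (Fin r) (Fin r) (Polynomial (𝓞 K))) (β : Fin r → ℚ)
    (U : Matrix (Fin r) (Fin r) (PowerSeries K))
    (hU : IsFundamentalAtZero (algebraMap (𝓞 K) K) D 1 A β U)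
    (hgap : ∀ i j, |β i - β j| < 1)
    (n₁ n₂ : ℕ) (hn₁ : 0 < n₁) (hn₂ : 0 < n₂) (hA : TriangleType D n₁ n₂ A)
    (R : ℝ) (hR : R = triRadius n₁ n₂ ∨ (0 < R ∧ CuspRadius n₁ n₂ R))
    (S : Finset ℕ) (hS : ∀ p ∈ S, p.Prime) (hDS : ∀ p : ℕ, p.Prime → p ∣ D → p ∈ S)
    (E : Set ℕ) (hE : Summable (sparseTerm E))
    (ℓ : ℕ → ℝ) (hℓ : ∀ p ∈ S, 0 ≤ ℓ p)
    (hbad : ∀ p ∈ S, AdmissibleAt (algebraMap (𝓞 K) K) D 1 A β U p (ℓ p))
    (hgood : ∀ p : ℕ, p.Prime → p ∉ S → p ∉ E → (Ideal.span {(p : 𝓞 K)}).IsRadical ∧
      ∀ (𝔭 : Ideal (𝓞 K)) [𝔭.IsMaximal], (p : 𝓞 K) ∈ 𝔭 → PCurvZeroAt 𝔭 D 1 A)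
    (hsum : defect (numExp β) S E ℓ < Real.log R) :
    FullAlgebraic (sysG (algebraMap (𝓞 K) K) D 1 A) :=
  triangle_defect hD hU hgap hS hDS hE hℓ hbad hgood hn₁ hn₂ hA hR hsum

end Pool.Agent.Results.MP_5e5ff1_ag.ModularOrbifoldDefect
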