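import Pool.Agent.H925.VertFinal

set_option autoImplicit false

/-!
# Grothendieck's conjecture at the vertices of triangle orbifolds: any rank, uniform degrees

The `p`-curvature conjecture for flat bundles of any rank over any number field on the triangle orbifold of type
`(n₀, n₁, ∞)`, expanded at the vertex of order `n₀`, if the total defect is less than the logarithm of the radius of
the orbifold at the vertex: `137` for `(3, 2, ∞)`, `91` for `(4, 2, ∞)`, `57` for `(2, 3, ∞)`, `34` for `(3, 3, ∞)`, `22`
for `(4, 4, ∞)`, `19` for `(2, n, ∞)`. As there are at most `n₀` exponents at the vertex, the defect does not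
depend on the rank, and the algebraic solutions lie in an extension whose degree is bounded independently of the
field, the rank, the system and the primes.

So there are explicit classes of systems of any rank over any number field for which the conjecture holds, with a
uniform bound for the degree of the solutions (for the order of the monodromy group): the systems
`Y' = (b / (3 x) + P / (4 (x - 1))) Y` with `b` diagonal with the entries `0, 1, 2` and `P ^ 2 = 2 P`, and
`Y' = (b / (4 x) + P / (8 (x - 1))) Y` with `b` diagonal with the entries `0, 1, 2, 3` and `P ^ 2 = 4 P`, with an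
integral matrix `P`. (If the `p`-curvatures vanish, the exponents at infinity are in `(1 / 6) ℤ` and in `(1 / 4) ℤ`,
so the monodromy of these two explicit classes factors through the Euclidean triangle groups `(2, 3, 6)` and
`(2, 4, 4)`, for which the conjecture was known; new is here the uniform bound.)

Proof. Let `(s, v)` be a holomorphic map from the unit disc to the curve `s ^ n₀ + v ^ n₁ = 1`, `s(0) = 0`. The
solutions `x ^ (j / n₀) h(x)` become holomorphic on the disc for `x = s ^ n₀`. The criterion of algebraicity (Siegel's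
lemma) is applied to all integral linear combinations of the entries of the fundamental matrix and of their
coordinates in a basis of the field, whose denominators are bounded together, with the same constants; so the
degrees are bounded by a constant which depends only on the radius and the defect, and a primitive combination
generates the field of all the entries. The maps `(s, v)` are obtained from the tower of the transformations of
Landen at a point where the modular function `λ` is `1 / 2` or `(2 - √3) / 4`, with a rigorous evaluation of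
the derivative.
-/

namespace Pool.Agent.Results.MP_5e5ff1_ag.VertexUniformBound

open NumberField Pool.Agent.Helper338PC Pool.Agent.H925

/-- (1) Radii of triangle orbifolds at their vertices. (2) For a uniformization of radius `R` at the
vertex of order `n₀` and `δ < log R` there is a constant `M` such that every system
`Y' = A / (D x (x - 1)) Y` of vertex type `(n₀, n₁)`, of any rank over any number field, whose defect
is at most `δ` and whose `p`-curvatures vanish outside a finite set `S` and a sparse set `E` of primes,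
has a full set of algebraic solutions in an extension of degree at most `M`. (3), (4) The explicit
classes `Y' = (b / (3 x) + P / (4 (x - 1))) Y` and `Y' = (b / (4 x) + P / (8 (x - 1))) Y`. -/
theorem result :
    (VertexRadius 3 2 137 ∧ VertexRadius 4 2 91 ∧ VertexRadius 2 3 57 ∧ VertexRadius 3 3 34 ∧
      VertexRadius 4 4 22 ∧ ∀ n : ℕ, 0 < n → VertexRadius 2 n 19) ∧
    (∀ n₀ n₁ : ℕ, 0 < n₀ → 0 < n₁ → ∀ R δ : ℝ, 0 < R → VertexRadius n₀ n₁ R → δ < Real.log R →
      ∃ M : ℕ, ∀ (K : Type) [Field K] [NumberField K] (r D : ℕ)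
        (A : Matrix (Fin r) (Fin r) (Polynomial (𝓞 K))) (β : Fin r → ℚ)
        (U : Matrix (Fin r) (Fin r) (PowerSeries K)), D ≠ 0 →
        IsFundamentalAtZero (algebraMap (𝓞 K) K) D 1 A β U → VertexType D n₀ n₁ A →
        ∀ S : Finset ℕ, (∀ p ∈ S, p.Prime) → (∀ p : ℕ, p.Prime → p ∣ D → p ∈ S) →
        ∀ E : Set ℕ, Summable (sparseTerm E) → ∀ ℓ : ℕ → ℝ, (∀ p ∈ S, 0 ≤ ℓ p) →
        (∀ p ∈ S, AdmissibleAt (algebraMap (𝓞 K) K) D 1 A β U p (ℓ p)) →
        (∀ p : ℕ, p.Prime → p ∉ S → p ∉ E → (Ideal.span {(p : 𝓞 K)}).IsRadical ∧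
          ∀ (𝔭 : Ideal (𝓞 K)) [𝔭.IsMaximal], (p : 𝓞 K) ∈ 𝔭 → PCurvZeroAt 𝔭 D 1 A) →
        defect (numExp β) S E ℓ ≤ δ →
        AlgebraicOfDegree (sysG (algebraMap (𝓞 K) K) D 1 A) M) ∧
    (∃ M : ℕ, ∀ (K : Type) [Field K] [NumberField K] (r : ℕ) (b : Fin r → ℕ)
      (P : Matrix (Fin r) (Fin r) (𝓞 K)), (∀ i, b i < 3) → P * P = 2 • P →
      ∀ E : Set ℕ, Summable (sparseTerm E) → ∑' p : ℕ, sparseTerm E p ≤ 1 / 16 →
      (∀ p : ℕ, p.Prime → p ≠ 2 → p ≠ 3 → p ∉ E → (Ideal.span {(p : 𝓞 K)}).IsRadical ∧
        ∀ (𝔭 : Ideal (𝓞 K)) [𝔭.IsMaximal], (p : 𝓞 K) ∈ 𝔭 →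
          PCurvZeroAt 𝔭 12 1 (vfam 4 3 b P)) →
      AlgebraicOfDegree (sysG (algebraMap (𝓞 K) K) 12 1 (vfam 4 3 b P)) M) ∧
    (∃ M : ℕ, ∀ (K : Type) [Field K] [NumberField K] (r : ℕ) (b : Fin r → ℕ)
      (P : Matrix (Fin r) (Fin r) (𝓞 K)), (∀ i, b i < 4) → P * P = 4 • P →
      ∀ E : Set ℕ, Summable (sparseTerm E) → ∑' p : ℕ, sparseTerm E p ≤ 1 / 70 →
      (∀ p : ℕ, p.Prime → p ≠ 2 → p ∉ E → (Ideal.span {(p : 𝓞 K)}).IsRadical ∧
        ∀ (𝔭 : Ideal (𝓞 K)) [𝔭.IsMaximal], (p : 𝓞 K) ∈ 𝔭 →
          PCurvZeroAt 𝔭 8 1 (vfam 2 1 b P)) →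
      AlgebraicOfDegree (sysG (algebraMap (𝓞 K) K) 8 1 (vfam 2 1 b P)) M) :=
  ⟨⟨vr_three_two, vr_four_two, vr_two_three, vr_three_three, vr_four_four, fun _ => vr_two_any⟩,
    fun _ _ h0 h1 _ _ hR0 hR hδ => vertex_criterion h0 h1 hR0 hR hδ, fam_three_two, fam_four_two⟩

end Pool.Agent.Results.MP_5e5ff1_ag.VertexUniformBound
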